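import Mathlib

set_option autoImplicit false

open Filter Topology

namespace Pool.Agent.Results.MP_60e8bf_an.IrregularlyVisiting

/-- the set of visiting times `N_T(x, U) = {n ≥ 0 : T ^ n x ∈ U}` -/
def visits {𝕜 : Type*} [RCLike 𝕜] {X : Type*} [NormedAddCommGroup X] [NormedSpace 𝕜 X]
    (T : X →L[𝕜] X) (x : X) (U : Set X) : Set ℕ := {n : ℕ | (T ^ n) x ∈ U}

/-- the lower density `liminf_N #(A ∩ [0, N]) / (N + 1)` -/
noncomputable def lowerDens (A : Set ℕ) : ℝ :=
  liminf (fun N : ℕ => ((A ∩ Set.Iic N).ncard : ℝ) / ((N : ℝ) + 1)) atTop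

/-- the upper density `limsup_N #(A ∩ [0, N]) / (N + 1)` -/
noncomputable def upperDens (A : Set ℕ) : ℝ :=
  limsup (fun N : ℕ => ((A ∩ Set.Iic N).ncard : ℝ) / ((N : ℝ) + 1)) atTop

/-- `x` is a hypercyclic vector of `T` -/
def Hypercyclic {𝕜 : Type*} [RCLike 𝕜] {X : Type*} [NormedAddCommGroup X] [NormedSpace 𝕜 X]
    (T : X →L[𝕜] X) (x : X) : Prop :=
  ∀ U : Set X, IsOpen U → U.Nonempty → (visits T x U).Nonempty

/-- `x` is a frequently hypercyclic vector of `T` -/
def FreqHypercyclic {𝕜 : Type*} [RCLike 𝕜] {X : Type*} [NormedAddCommGroup X] [NormedSpace 𝕜 X]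
    (T : X →L[𝕜] X) (x : X) : Prop :=
  ∀ U : Set X, IsOpen U → U.Nonempty → 0 < lowerDens (visits T x U)

/-! ### densities -/

theorem ncard_inter_le (A : Set ℕ) (N : ℕ) : (A ∩ Set.Iic N).ncard ≤ N + 1 := by
  calc (A ∩ Set.Iic N).ncard ≤ (Set.Iic N).ncard :=
        Set.ncard_le_ncard Set.inter_subset_right (Set.finite_Iic N)
    _ = N + 1 := by
        rw [← Finset.coe_Iic, Set.ncard_coe_finset, Nat.card_Iic]

theorem ratio_nonneg (A : Set ℕ) (N : ℕ) :
    0 ≤ ((A ∩ Set.Iic N).ncard : ℝ) / ((N : ℝ) + 1) := by positivity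

theorem ratio_le_one (A : Set ℕ) (N : ℕ) :
    ((A ∩ Set.Iic N).ncard : ℝ) / ((N : ℝ) + 1) ≤ 1 := by
  rw [div_le_one (by positivity)]
  exact_mod_cast ncard_inter_le A N

theorem lowerDens_le {A : Set ℕ} {c : ℝ}
    (h : ∃ᶠ N in atTop, ((A ∩ Set.Iic N).ncard : ℝ) / ((N : ℝ) + 1) ≤ c) : lowerDens A ≤ c := by
  refine liminf_le_of_frequently_le h ?_
  exact ⟨0, by
    rw [eventually_map]
    exact Eventually.of_forall fun N => ratio_nonneg A N⟩

theorem le_upperDens {A : Set ℕ} {c : ℝ}
    (h : ∃ᶠ N in atTop, c ≤ ((A ∩ Set.Iic N).ncard : ℝ) / ((N : ℝ) + 1)) : c ≤ upperDens A := by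
  refine le_limsup_of_frequently_le h ?_
  exact ⟨1, by
    rw [eventually_map]
    exact Eventually.of_forall fun N => ratio_le_one A N⟩

theorem upperDens_le_one (A : Set ℕ) : upperDens A ≤ 1 := by
  apply limsup_le_of_le
  · exact ⟨0, by
      simp only [eventually_map, eventually_atTop]
      rintro a ⟨b, hb⟩
      exact (ratio_nonneg A b).trans (hb b le_rfl)⟩
  · exact Eventually.of_forall fun N => ratio_le_one A N

/-! ### a set with lower density zero and upper density one -/

def osc : Set ℕ := {n | ∃ j : ℕ, (2 * j).factorial ≤ n ∧ n < (2 * j + 1).factorial}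

theorem osc_low (j : ℕ) : (osc ∩ Set.Iic ((2 * j + 2).factorial - 1)).ncard ≤ (2 * j + 1).factorial := by
  have : osc ∩ Set.Iic ((2 * j + 2).factorial - 1) ⊆ Set.Iio ((2 * j + 1).factorial) := by
    rintro n ⟨⟨i, hi1, hi2⟩, hn⟩
    rw [Set.mem_Iic] at hn
    rw [Set.mem_Iio]
    have hpos : 0 < (2 * j + 2).factorial := Nat.factorial_pos _
    have h1 : (2 * i).factorial < (2 * j + 2).factorial := by omega
    have h2 : 2 * i < 2 * j + 2 := by
      by_contra hcon
      push Not at hcon
      exact absurd (Nat.factorial_le hcon) (by omega)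
    exact lt_of_lt_of_le hi2 (Nat.factorial_le (by omega))
  calc _ ≤ (Set.Iio ((2 * j + 1).factorial)).ncard := Set.ncard_le_ncard this (Set.finite_Iio _)
    _ = _ := by rw [← Finset.coe_Iio, Set.ncard_coe_finset, Nat.card_Iio]

theorem osc_high (j : ℕ) : (2 * j + 1).factorial - (2 * j).factorial ≤
    (osc ∩ Set.Iic ((2 * j + 1).factorial - 1)).ncard := by
  have hsub : Set.Ico ((2 * j).factorial) ((2 * j + 1).factorial) ⊆
      osc ∩ Set.Iic ((2 * j + 1).factorial - 1) := by
    rintro n ⟨h1, h2⟩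
    exact ⟨⟨j, h1, h2⟩, by rw [Set.mem_Iic]; omega⟩
  calc _ = (Set.Ico ((2 * j).factorial) ((2 * j + 1).factorial)).ncard := by
        rw [← Finset.coe_Ico, Set.ncard_coe_finset, Nat.card_Ico]
    _ ≤ _ := Set.ncard_le_ncard hsub ((Set.finite_Iic _).subset Set.inter_subset_right)

/-! ### separated visits -/

theorem card_separated {S : Set ℕ} {K : ℕ} (hK : 0 < K) (N : ℕ)
    (hS : ∀ a ∈ S, ∀ b ∈ S, a < b → K ≤ b - a) : (S ∩ Set.Iic N).ncard ≤ N / K + 1 := by
  have : (S ∩ Set.Iic N).ncard ≤ (Set.Iio (N / K + 1)).ncard := by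
    apply Set.ncard_le_ncard_of_injOn (fun n => n / K)
    · rintro n ⟨_, hn⟩
      rw [Set.mem_Iic] at hn
      rw [Set.mem_Iio]
      exact Nat.lt_succ_of_le (Nat.div_le_div_right hn)
    · rintro a ⟨ha, _⟩ b ⟨hb, _⟩ hab
      simp only at hab
      by_contra hne
      rcases lt_or_gt_of_ne hne with h | h
      · have h1 := hS a ha b hb h
        have h2 : a + K ≤ b := by omega
        have h3 : (a + K) / K ≤ b / K := Nat.div_le_div_right h2
        rw [Nat.add_div_right _ hK] at h3
        omega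
      · have h1 := hS b hb a ha h
        have h2 : b + K ≤ a := by omega
        have h3 : (b + K) / K ≤ a / K := Nat.div_le_div_right h2
        rw [Nat.add_div_right _ hK] at h3
        omega
  rwa [← Finset.coe_Iio, Set.ncard_coe_finset, Nat.card_Iio] at this

section
variable {𝕜 : Type*} [RCLike 𝕜] {X : Type*} [NormedAddCommGroup X] [NormedSpace 𝕜 X]

theorem orbit_injective [Nontrivial X] {T : X →L[𝕜] X} {x : X} (hx : Hypercyclic T x) {a b : ℕ}
    (hab : a < b) : (T ^ a) x ≠ (T ^ b) x := by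
  classical
  intro h
  have hfin : ∀ n, (T ^ n) x ∈ (Finset.range b).image (fun i => (T ^ i) x) := by
    intro n
    induction n using Nat.strong_induction_on with
    | _ n ih =>
      by_cases hn : n < b
      · exact Finset.mem_image_of_mem _ (Finset.mem_range.2 hn)
      · push Not at hn
        have h1 : (T ^ n) x = (T ^ (n - b + a)) x := by
          have e1 : n = (n - b) + b := by omega
          have e2 : (T ^ n) x = (T ^ (n - b)) ((T ^ b) x) := by
            conv_lhs => rw [e1, pow_add]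
            rfl
          rw [e2, ← h, pow_add]
          rfl
        rw [h1]
        exact ih _ (by omega)
  obtain ⟨v, hv⟩ := exists_ne (0 : X)
  have hinf : Infinite X :=
    Infinite.of_injective (fun c : 𝕜 => c • v) (fun c d hcd => smul_left_injective 𝕜 hv hcd)
  have hclosed : IsClosed (((Finset.range b).image (fun i => (T ^ i) x) : Finset X) : Set X) :=
    (Finset.finite_toSet _).isClosed
  obtain ⟨y, hy⟩ := Infinite.exists_notMem_finset ((Finset.range b).image (fun i => (T ^ i) x))
  obtain ⟨n, hn⟩ := hx _ hclosed.isOpen_compl ⟨y, by simpa using hy⟩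
  exact hn (by exact_mod_cast hfin n)

theorem orbit_ne [Nontrivial X] {T : X →L[𝕜] X} {x : X} (hx : Hypercyclic T x) {a b : ℕ}
    (hab : a ≠ b) : (T ^ a) x ≠ (T ^ b) x := by
  rcases lt_or_gt_of_ne hab with h | h
  · exact orbit_injective hx h
  · exact (orbit_injective hx h).symm

/-- a radius making the visits separated -/
theorem exists_radius_sep [Nontrivial X] {T : X →L[𝕜] X} {x : X} (hx : Hypercyclic T x) (n K : ℕ) :
    ∃ r > 0, ∀ k, 1 ≤ k → k ≤ K → ∀ y ∈ Metric.ball ((T ^ n) x) r,
      (T ^ k) y ∉ Metric.ball ((T ^ n) x) r := by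
  induction K with
  | zero => exact ⟨1, one_pos, fun k h1 h2 => by omega⟩
  | succ K ih =>
    obtain ⟨r, hr, h⟩ := ih
    have hne : (T ^ (K + 1)) ((T ^ n) x) ≠ (T ^ n) x := by
      have := orbit_ne hx (a := K + 1 + n) (b := n) (by omega)
      rw [pow_add] at this
      exact this
    set z := (T ^ n) x with hz
    have hd : 0 < dist ((T ^ (K + 1)) z) z := dist_pos.2 hne
    have hc : ContinuousAt (fun y => (T ^ (K + 1)) y) z := (T ^ (K + 1)).continuous.continuousAt
    obtain ⟨δ, hδ, hδ2⟩ := Metric.continuousAt_iff.1 hc (dist ((T ^ (K + 1)) z) z / 2) (half_pos hd)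
    refine ⟨min r (min δ (dist ((T ^ (K + 1)) z) z / 2)), by positivity, ?_⟩
    intro k h1 h2 y hy hy2
    rw [Metric.mem_ball] at hy hy2
    rcases Nat.lt_or_ge K k with hk | hk
    · have hk2 : k = K + 1 := by omega
      subst hk2
      have h3 := hδ2 (lt_of_lt_of_le hy ((min_le_right _ _).trans (min_le_left _ _)))
      have h4 : dist ((T ^ (K + 1)) y) z < dist ((T ^ (K + 1)) z) z / 2 :=
        lt_of_lt_of_le hy2 ((min_le_right _ _).trans (min_le_right _ _))
      have h5 := dist_triangle_left ((T ^ (K + 1)) z) z ((T ^ (K + 1)) y)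
      linarith
    · exact h k h1 hk y (Metric.mem_ball.2 (lt_of_lt_of_le hy (min_le_left _ _)))
        (Metric.mem_ball.2 (lt_of_lt_of_le hy2 (min_le_left _ _)))

/-- a radius excluding the first points of the orbit -/
theorem exists_radius_far [Nontrivial X] {T : X →L[𝕜] X} {x : X} (hx : Hypercyclic T x) (n L : ℕ) :
    ∃ r > 0, ∀ m, m < L → m ≠ n → (T ^ m) x ∉ Metric.ball ((T ^ n) x) r := by
  induction L with
  | zero => exact ⟨1, one_pos, fun k h1 => by omega⟩
  | succ L ih =>
    obtain ⟨r, hr, h⟩ := ih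
    by_cases hL : L = n
    · exact ⟨r, hr, fun m h1 h2 => h m (by omega) h2⟩
    · have hd : 0 < dist ((T ^ L) x) ((T ^ n) x) := dist_pos.2 (orbit_ne hx hL)
      refine ⟨min r (dist ((T ^ L) x) ((T ^ n) x)), by positivity, ?_⟩
      intro m h1 h2 h3
      rw [Metric.mem_ball] at h3
      by_cases hm : m = L
      · subst hm
        exact absurd (lt_of_lt_of_le h3 (min_le_right _ _)) (lt_irrefl _)
      · exact h m (by omega) h2 (Metric.mem_ball.2 (lt_of_lt_of_le h3 (min_le_left _ _)))

theorem exists_radius [Nontrivial X] {T : X →L[𝕜] X} {x : X} (hx : Hypercyclic T x) (n K : ℕ)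
    (hK : 0 < K) :
    ∃ r > 0, ∀ N, (((visits T x (Metric.ball ((T ^ n) x) r) \ {n}) ∩ Set.Iic N).ncard : ℝ) ≤
      2 * ((N : ℝ) + 1) / K ∧ (N < K → (visits T x (Metric.ball ((T ^ n) x) r) \ {n}) ∩ Set.Iic N = ∅) := by
  obtain ⟨r1, hr1, h1⟩ := exists_radius_sep hx n K
  obtain ⟨r2, hr2, h2⟩ := exists_radius_far hx n K
  have hempty : ∀ N, N < K →
      (visits T x (Metric.ball ((T ^ n) x) (min r1 r2)) \ {n}) ∩ Set.Iic N = ∅ := by
    intro N hN
    rw [Set.eq_empty_iff_forall_notMem]
    rintro m ⟨⟨hm1, hm2⟩, hm3⟩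
    rw [Set.mem_Iic] at hm3
    refine h2 m (by omega) hm2 (Metric.mem_ball.2 (lt_of_lt_of_le (Metric.mem_ball.1 hm1) (min_le_right _ _)))
  refine ⟨min r1 r2, by positivity, fun N => ⟨?_, hempty N⟩⟩
  by_cases hN : N < K
  · rw [hempty N hN]
    simp only [Set.ncard_empty, Nat.cast_zero]
    positivity
  · push Not at hN
    have hcard := card_separated (S := visits T x (Metric.ball ((T ^ n) x) (min r1 r2)) \ {n}) hK N (by
      rintro a ⟨ha, _⟩ b ⟨hb, _⟩ hab
      by_contra hcon
      push Not at hcon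
      have ha' : (T ^ a) x ∈ Metric.ball ((T ^ n) x) r1 :=
        Metric.mem_ball.2 (lt_of_lt_of_le (Metric.mem_ball.1 ha) (min_le_left _ _))
      have hb' : (T ^ (b - a)) ((T ^ a) x) ∈ Metric.ball ((T ^ n) x) r1 := by
        have : (T ^ (b - a)) ((T ^ a) x) = (T ^ b) x := by
          have e : b = (b - a) + a := by omega
          conv_rhs => rw [e, pow_add]
          rfl
        rw [this]
        exact Metric.mem_ball.2 (lt_of_lt_of_le (Metric.mem_ball.1 hb) (min_le_left _ _))
      exact h1 (b - a) (by omega) (by omega) _ ha' hb')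
    have hK' : (0 : ℝ) < K := by exact_mod_cast hK
    have hN' : (K : ℝ) ≤ N := by exact_mod_cast hN
    calc (((visits T x (Metric.ball ((T ^ n) x) (min r1 r2)) \ {n}) ∩ Set.Iic N).ncard : ℝ)
        ≤ ((N / K + 1 : ℕ) : ℝ) := by exact_mod_cast hcard
      _ ≤ (N : ℝ) / K + 1 := by
          push_cast
          gcongr
          exact Nat.cast_div_le
      _ ≤ 2 * ((N : ℝ) + 1) / K := by
          rw [div_add_one hK'.ne']
          gcongr
          linarith

theorem main [Nontrivial X] {T : X →L[𝕜] X} {x : X} (hx : Hypercyclic T x) {ε : ℝ} (hε : 0 < ε) :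
    ∃ U : Set X, IsOpen U ∧ U.Nonempty ∧ lowerDens (visits T x U) ≤ ε ∧
      upperDens (visits T x U) = 1 := by
  obtain ⟨c, hc⟩ := exists_nat_gt (1 / ε)
  have hc0 : (0 : ℝ) < c := (by positivity : 0 < 1 / ε).trans hc
  have hcpos : 0 < c := by exact_mod_cast hc0
  have hK : ∀ n : ℕ, 0 < c * 2 ^ (n + 3) := fun n => by positivity
  choose r hr hr2 using fun n => exists_radius hx n (c * 2 ^ (n + 3)) (hK n)
  set U : Set X := ⋃ n ∈ osc, Metric.ball ((T ^ n) x) (r n) with hU
  have hosc1 : (2 : ℕ) ∈ osc := ⟨1, by decide, by decide⟩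
  have hsubset : osc ⊆ visits T x U := by
    intro n hn
    exact Set.mem_biUnion hn (Metric.mem_ball_self (hr n))
  -- upper bound for the count
  have hcount : ∀ N : ℕ, ((visits T x U ∩ Set.Iic N).ncard : ℝ) ≤
      (osc ∩ Set.Iic N).ncard + ε / 2 * (N + 1) := by
    intro N
    have hsub : visits T x U ∩ Set.Iic N ⊆ (osc ∩ Set.Iic N) ∪
        ⋃ n ∈ Finset.range (N + 1), ((visits T x (Metric.ball ((T ^ n) x) (r n)) \ {n}) ∩ Set.Iic N) := by
      rintro m ⟨hm, hmN⟩
      rw [visits, Set.mem_ofPred_eq, hU] at hm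
      simp only [Set.mem_iUnion] at hm
      obtain ⟨n, hn, hmn⟩ := hm
      by_cases hmn2 : m = n
      · left; exact ⟨hmn2 ▸ hn, hmN⟩
      · right
        simp only [Set.mem_iUnion]
        have hmem : m ∈ (visits T x (Metric.ball ((T ^ n) x) (r n)) \ {n}) ∩ Set.Iic N :=
          ⟨⟨hmn, hmn2⟩, hmN⟩
        refine ⟨n, ?_, hmem⟩
        rw [Finset.mem_range]
        by_contra hcon
        push Not at hcon
        have h2n : n < 2 ^ (n + 3) := lt_trans (by omega : n < n + 3) (Nat.lt_two_pow_self)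
        have : N < c * 2 ^ (n + 3) := by
          calc N < n := by omega
            _ < 2 ^ (n + 3) := h2n
            _ ≤ c * 2 ^ (n + 3) := Nat.le_mul_of_pos_left _ hcpos
        rw [(hr2 n N).2 this] at hmem
        exact hmem
    have hfin2 : ((osc ∩ Set.Iic N) ∪ ⋃ n ∈ Finset.range (N + 1),
        ((visits T x (Metric.ball ((T ^ n) x) (r n)) \ {n}) ∩ Set.Iic N)).Finite := by
      refine (Set.finite_Iic N).subset ?_
      refine Set.union_subset Set.inter_subset_right ?_
      exact Set.iUnion₂_subset fun n _ => Set.inter_subset_right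
    have hb : (⋃ n ∈ Finset.range (N + 1),
        ((visits T x (Metric.ball ((T ^ n) x) (r n)) \ {n}) ∩ Set.Iic N)).ncard ≤
        ∑ n ∈ Finset.range (N + 1),
          ((visits T x (Metric.ball ((T ^ n) x) (r n)) \ {n}) ∩ Set.Iic N).ncard := by
      exact Finset.set_ncard_biUnion_le _ _
    have hsum : ((∑ n ∈ Finset.range (N + 1),
          ((visits T x (Metric.ball ((T ^ n) x) (r n)) \ {n}) ∩ Set.Iic N).ncard : ℕ) : ℝ) ≤
        ε / 2 * (N + 1) := by
      rw [Nat.cast_sum]
      have hgeo : ∑ n ∈ Finset.range (N + 1), (1 / 2 : ℝ) ^ n ≤ 2 := by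
        rw [geom_sum_eq (by norm_num)]
        have : (0 : ℝ) < (1 / 2) ^ (N + 1) := by positivity
        rw [div_le_iff_of_neg (by norm_num)]
        linarith
      calc ∑ n ∈ Finset.range (N + 1),
          (((visits T x (Metric.ball ((T ^ n) x) (r n)) \ {n}) ∩ Set.Iic N).ncard : ℝ)
          ≤ ∑ n ∈ Finset.range (N + 1), (ε * ((N : ℝ) + 1) / 4) * (1 / 2) ^ n := by
            apply Finset.sum_le_sum
            intro n _
            refine (hr2 n N).1.trans ?_
            push_cast
            have hN1 : (0 : ℝ) < (N : ℝ) + 1 := by positivity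
            rw [div_le_iff₀ (by positivity)]
            have e1 : ε * ((N : ℝ) + 1) / 4 * (1 / 2) ^ n * (c * 2 ^ (n + 3)) =
                2 * ((N : ℝ) + 1) * (ε * c) := by
              rw [pow_add, one_div, inv_pow]
              field_simp
              ring
            rw [e1]
            have : 1 ≤ ε * c := by
              have := (div_lt_iff₀ hε).1 hc
              linarith
            nlinarith
        _ = (ε * ((N : ℝ) + 1) / 4) * ∑ n ∈ Finset.range (N + 1), (1 / 2 : ℝ) ^ n := by
            rw [Finset.mul_sum]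
        _ ≤ (ε * ((N : ℝ) + 1) / 4) * 2 := by
            apply mul_le_mul_of_nonneg_left hgeo
            positivity
        _ = ε / 2 * (N + 1) := by ring
    have hb1 := (Set.ncard_le_ncard hsub hfin2).trans (Set.ncard_union_le _ _)
    have hb2 := hb1.trans (Nat.add_le_add_left hb _)
    have hb3 : ((visits T x U ∩ Set.Iic N).ncard : ℝ) ≤ _ := Nat.cast_le.2 hb2
    rw [Nat.cast_add] at hb3
    linarith
  refine ⟨U, ?_, ?_, ?_, ?_⟩
  · exact isOpen_biUnion fun n _ => Metric.isOpen_ball
  · exact ⟨_, Set.mem_biUnion hosc1 (Metric.mem_ball_self (hr 2))⟩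
  · -- lower density
    apply lowerDens_le
    rw [frequently_atTop]
    intro a
    obtain ⟨b, hb⟩ := exists_nat_gt (2 / ε)
    set j := max a b with hj
    refine ⟨(2 * j + 2).factorial - 1, ?_, ?_⟩
    · have : 2 * j + 2 ≤ (2 * j + 2).factorial := Nat.self_le_factorial _
      have : a ≤ j := le_max_left _ _
      omega
    · have hf : 0 < (2 * j + 2).factorial := Nat.factorial_pos _
      have e1 : (((2 * j + 2).factorial - 1 : ℕ) : ℝ) + 1 = ((2 * j + 2).factorial : ℝ) := by
        rw [Nat.cast_sub hf]; push_cast; ring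
      rw [e1, div_le_iff₀ (by exact_mod_cast hf)]
      have h1 := hcount ((2 * j + 2).factorial - 1)
      rw [e1] at h1
      have h2 : ((osc ∩ Set.Iic ((2 * j + 2).factorial - 1)).ncard : ℝ) ≤ (2 * j + 1).factorial := by
        exact_mod_cast osc_low j
      have h3 : ((2 * j + 1).factorial : ℝ) ≤ ε / 2 * (2 * j + 2).factorial := by
        rw [show 2 * j + 2 = (2 * j + 1) + 1 from rfl, Nat.factorial_succ (2 * j + 1)]
        push_cast
        have hj1 : 2 / ε < (j : ℝ) := lt_of_lt_of_le hb (by exact_mod_cast le_max_right _ _)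
        have hj2 : 2 < j * ε := (div_lt_iff₀ hε).1 hj1
        have hff : (0 : ℝ) < ((2 * j + 1).factorial : ℝ) := by exact_mod_cast Nat.factorial_pos _
        have : 1 ≤ ε / 2 * (2 * (j : ℝ) + 1 + 1) := by nlinarith
        nlinarith
      linarith
  · -- upper density
    apply le_antisymm (upperDens_le_one _)
    refine le_of_forall_lt_imp_le_of_dense ?_ 
    intro c' hc'
    apply le_upperDens
    rw [frequently_atTop]
    intro a
    obtain ⟨b, hb⟩ := exists_nat_gt (1 / (1 - c'))
    set j := max a b with hj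
    have hc1 : 0 < 1 - c' := by linarith
    refine ⟨(2 * j + 1).factorial - 1, ?_, ?_⟩
    · have h1 : 2 * j + 1 ≤ (2 * j + 1).factorial := Nat.self_le_factorial _
      have h2 : a ≤ j := le_max_left _ _
      omega
    · have hf : 0 < (2 * j + 1).factorial := Nat.factorial_pos _
      have e1 : (((2 * j + 1).factorial - 1 : ℕ) : ℝ) + 1 = ((2 * j + 1).factorial : ℝ) := by
        rw [Nat.cast_sub hf]; push_cast; ring
      rw [e1, le_div_iff₀ (by exact_mod_cast hf)]
      have h1 : (osc ∩ Set.Iic ((2 * j + 1).factorial - 1)).ncard ≤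
          (visits T x U ∩ Set.Iic ((2 * j + 1).factorial - 1)).ncard :=
        Set.ncard_le_ncard (Set.inter_subset_inter_left _ hsubset)
          ((Set.finite_Iic _).subset Set.inter_subset_right)
      have h2 := (osc_high j).trans h1
      have h3 : (2 * j).factorial ≤ (2 * j + 1).factorial := Nat.factorial_le (by omega)
      have h4 : (((2 * j + 1).factorial : ℝ) - (2 * j).factorial) ≤
          ((visits T x U ∩ Set.Iic ((2 * j + 1).factorial - 1)).ncard : ℝ) := by
        rw [← Nat.cast_sub h3]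
        exact_mod_cast h2
      refine le_trans ?_ h4
      rw [Nat.factorial_succ]
      push_cast
      have hj1 : 1 / (1 - c') < (j : ℝ) := lt_of_lt_of_le hb (by exact_mod_cast le_max_right _ _)
      have hj2 : 1 < j * (1 - c') := (div_lt_iff₀ hc1).1 hj1
      have hff : (0 : ℝ) < ((2 * j).factorial : ℝ) := by exact_mod_cast Nat.factorial_pos _
      have : 1 ≤ (2 * (j : ℝ) + 1) * (1 - c') := by nlinarith
      nlinarith

end

/-- every hypercyclic vector of a bounded operator on a nonzero normed space visits some non-empty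
open set irregularly, with lower density at most `ε` and upper density one; in particular so does
every frequently hypercyclic vector, and a frequently hypercyclic operator has a frequently
hypercyclic vector whose orbit is irregularly visiting -/
theorem result (𝕜 : Type*) [RCLike 𝕜] (X : Type*) [NormedAddCommGroup X] [NormedSpace 𝕜 X]
    [Nontrivial X] (T : X →L[𝕜] X) :
    (∀ x : X, Hypercyclic T x → ∀ ε : ℝ, 0 < ε → ∃ U : Set X, IsOpen U ∧ U.Nonempty ∧
      lowerDens (visits T x U) ≤ ε ∧ upperDens (visits T x U) = 1) ∧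
    (∀ x : X, FreqHypercyclic T x → Hypercyclic T x) ∧
    ((∃ x : X, FreqHypercyclic T x) → ∃ x : X, FreqHypercyclic T x ∧ ∃ U : Set X, IsOpen U ∧
      U.Nonempty ∧ lowerDens (visits T x U) < upperDens (visits T x U)) := by
  have hF : ∀ x : X, FreqHypercyclic T x → Hypercyclic T x := by
    intro x hx U hU hne
    have h := hx U hU hne
    by_contra hcon
    rw [Set.not_nonempty_iff_eq_empty] at hcon
    rw [hcon] at h
    have : lowerDens (∅ : Set ℕ) ≤ 0 := by
      apply lowerDens_le
      apply Eventually.frequently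
      exact Eventually.of_forall fun N => by simp
    linarith
  refine ⟨fun x hx ε hε => main hx hε, hF, ?_⟩
  rintro ⟨x, hx⟩
  obtain ⟨U, h1, h2, h3, h4⟩ := main (hF x hx) (by norm_num : (0 : ℝ) < 1 / 2)
  exact ⟨x, hx, U, h1, h2, by rw [h4]; linarith⟩

end Pool.Agent.Results.MP_60e8bf_an.IrregularlyVisiting
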